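import Pool.Agent.Helper43.EV.Goals

/-!
# Project EV (MP_d4e2f9_lc), packet EV-CLS: the classes of groups
-/

set_option autoImplicit false

namespace Pool.Agent.Helper57.EV.CLS

open Pool.Agent.Helper43.EV

theorem pow_add_one {G : Type} [Group G] {σ : G} {p k : ℕ} (h : σ ^ (p ^ k) = 1) (l : ℕ) :
    σ ^ (p ^ (k + l)) = 1 := by
  rw [pow_add, pow_mul, h, one_pow]

theorem pow_add_mem {G : Type} [Group G] {P : Subgroup G} {σ : G} {p k : ℕ}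
    (h : σ ^ (p ^ k) ∈ P) (l : ℕ) : σ ^ (p ^ (k + l)) ∈ P := by
  rw [pow_add, pow_mul]
  exact P.pow_mem h _

theorem pr_prod (p r : ℕ) (G₁ G₂ : Type) [Group G₁] [Group G₂] (H₁ : Subgroup G₁)
    (H₂ : Subgroup G₂) (h₁ : PR p r G₁ H₁) (h₂ : PR p r G₂ H₂) :
    PR p r (G₁ × G₂) (H₁.prod H₂) := by
  obtain ⟨P₁, a₁, b₁, c₁, d₁⟩ := h₁
  obtain ⟨P₂, a₂, b₂, c₂, d₂⟩ := h₂
  refine ⟨P₁.prod P₂, Subgroup.prod_mono a₁ a₂, ?_, ?_, ?_⟩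
  · intro σ hσ τ hτ
    rw [Subgroup.mem_prod] at hσ hτ ⊢
    exact ⟨b₁ _ hσ.1 _ hτ.1, b₂ _ hσ.2 _ hτ.2⟩
  · intro σ hσ
    rw [Subgroup.mem_prod] at hσ
    obtain ⟨k₁, hk₁⟩ := c₁ _ hσ.1
    obtain ⟨k₂, hk₂⟩ := c₂ _ hσ.2
    refine ⟨k₁ + k₂, Prod.ext ?_ ?_⟩
    · rw [Prod.pow_fst]
      exact pow_add_one hk₁ k₂
    · rw [Prod.pow_snd, add_comm]
      exact pow_add_one hk₂ k₁
  · intro σ hσ
    rw [Subgroup.mem_prod] at hσ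
    obtain ⟨k₁, hk₁⟩ := d₁ _ hσ.1
    obtain ⟨k₂, hk₂⟩ := d₂ _ hσ.2
    refine ⟨k₁ + k₂, ?_⟩
    rw [Subgroup.mem_prod]
    constructor
    · rw [Prod.pow_fst]
      exact pow_add_mem hk₁ k₂
    · rw [Prod.pow_snd, add_comm]
      exact pow_add_mem hk₂ k₁

theorem pr_map (p r : ℕ) (G G' : Type) [Group G] [Group G'] (φ : G →* G') (H : Subgroup G)
    (h : PR p r G H) : PR p r G' (H.map φ) := by
  obtain ⟨P, a, b, c, d⟩ := h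
  refine ⟨P.map φ, Subgroup.map_mono a, ?_, ?_, ?_⟩
  · intro σ hσ τ hτ
    obtain ⟨s, hs, rfl⟩ := Subgroup.mem_map.1 hσ
    obtain ⟨t, ht, rfl⟩ := Subgroup.mem_map.1 hτ
    exact Subgroup.mem_map.2 ⟨s * t * s⁻¹, b s hs t ht, by rw [map_mul, map_mul, map_inv]⟩
  · intro σ hσ
    obtain ⟨s, hs, rfl⟩ := Subgroup.mem_map.1 hσ
    obtain ⟨k, hk⟩ := c s hs
    exact ⟨k, by rw [← map_pow, hk, map_one]⟩
  · intro σ hσ
    obtain ⟨s, hs, rfl⟩ := Subgroup.mem_map.1 hσ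
    obtain ⟨k, hk⟩ := d s hs
    exact ⟨k, Subgroup.mem_map.2 ⟨_, hk, by rw [map_pow]⟩⟩

theorem pr_of_r (p r : ℕ) (G : Type) [Group G] (H : Subgroup G) (h : PG r G H) : PR p r G H := by
  refine ⟨⊥, bot_le, ?_, ?_, ?_⟩
  · intro σ _ τ hτ
    rw [Subgroup.mem_bot] at hτ ⊢
    rw [hτ, mul_one, mul_inv_cancel]
  · intro σ hσ
    rw [Subgroup.mem_bot] at hσ
    exact ⟨0, by rw [hσ, one_pow]⟩
  · intro σ hσ
    obtain ⟨k, hk⟩ := h σ hσ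
    exact ⟨k, Subgroup.mem_bot.2 hk⟩

theorem pr_of_p (p r : ℕ) (G : Type) [Group G] (H : Subgroup G) (h : PG p G H) : PR p r G H := by
  refine ⟨H, le_rfl, ?_, h, ?_⟩
  · intro σ hσ τ hτ
    exact H.mul_mem (H.mul_mem hσ hτ) (H.inv_mem hσ)
  · intro σ hσ
    exact ⟨0, by rw [pow_zero, pow_one]; exact hσ⟩

theorem ol_prod (p r : ℕ) (G₁ G₂ : Type) [Group G₁] [Group G₂] (H₁ : Subgroup G₁)
    (H₂ : Subgroup G₂) (h₁ : PR p r G₁ H₁) (h₂ : CY G₂ H₂) : OL p r (G₁ × G₂) (H₁.prod H₂) := by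
  obtain ⟨P₁, a, b, c, d⟩ := h₁
  obtain ⟨g, hg, hg'⟩ := h₂
  refine ⟨P₁.prod ⊥, P₁.prod H₂, Subgroup.prod_mono le_rfl bot_le, Subgroup.prod_mono a le_rfl,
    ?_, ?_, ?_, ?_, ?_⟩
  · intro σ hσ τ hτ
    rw [Subgroup.mem_prod] at hσ hτ ⊢
    exact ⟨b _ hσ.1 _ hτ.1, H₂.mul_mem (H₂.mul_mem hσ.2 hτ.2) (H₂.inv_mem hσ.2)⟩
  · intro σ hσ τ hτ
    rw [Subgroup.mem_prod] at hσ hτ ⊢
    refine ⟨b _ (a hσ.1) _ hτ.1, ?_⟩
    have h1 := Subgroup.mem_bot.1 hτ.2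
    rw [Subgroup.mem_bot]
    show σ.2 * τ.2 * σ.2⁻¹ = 1
    rw [h1, mul_one, mul_inv_cancel]
  · intro σ hσ
    rw [Subgroup.mem_prod] at hσ
    obtain ⟨k, hk⟩ := d _ hσ.1
    refine ⟨k, ?_⟩
    rw [Subgroup.mem_prod]
    constructor
    · rw [Prod.pow_fst]; exact hk
    · rw [Prod.pow_snd]; exact H₂.pow_mem hσ.2 _
  · refine ⟨(1, g), ?_, ?_⟩
    · rw [Subgroup.mem_prod]
      exact ⟨P₁.one_mem, hg⟩
    · intro τ hτ
      rw [Subgroup.mem_prod] at hτ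
      obtain ⟨k, hk⟩ := hg' _ hτ.2
      refine ⟨k, ?_⟩
      rw [Subgroup.mem_prod]
      constructor
      · show τ.1 * (1 : G₁) ^ k ∈ P₁
        rw [one_zpow, mul_one]
        exact hτ.1
      · rw [Subgroup.mem_bot]
        show τ.2 * g ^ k = 1
        exact hk
  · intro σ hσ
    rw [Subgroup.mem_prod] at hσ
    obtain ⟨k, hk⟩ := c _ hσ.1
    refine ⟨k, Prod.ext ?_ ?_⟩
    · rw [Prod.pow_fst]; exact hk
    · rw [Prod.pow_snd, Subgroup.mem_bot.1 hσ.2, one_pow]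
      rfl

theorem ol_of_pr (p r : ℕ) (G : Type) [Group G] (H : Subgroup G) (h : PR p r G H) :
    OL p r G H := by
  obtain ⟨P, a, b, c, d⟩ := h
  refine ⟨P, P, le_rfl, a, b, fun σ hσ τ hτ => b σ (a hσ) τ hτ, d, ⟨1, P.one_mem, ?_⟩, c⟩
  intro τ hτ
  exact ⟨0, by rw [zpow_zero, mul_one]; exact hτ⟩

/-- the elements `n * s g` -/
def sg {G Gb : Type} [Group G] [Group Gb] (N : Subgroup G) (s : Gb →* G) (H : Subgroup Gb)
    (hN : ∀ g : Gb, ∀ n ∈ N, s g * n * (s g)⁻¹ ∈ N) : Subgroup G where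
  carrier := {x | ∃ n ∈ N, ∃ g ∈ H, x = n * s g}
  one_mem' := ⟨1, N.one_mem, 1, H.one_mem, by rw [map_one, mul_one]⟩
  mul_mem' := by
    rintro x y ⟨n, hn, g, hg, rfl⟩ ⟨n', hn', g', hg', rfl⟩
    refine ⟨n * (s g * n' * (s g)⁻¹), N.mul_mem hn (hN g n' hn'), g * g', H.mul_mem hg hg', ?_⟩
    rw [map_mul]
    group
  inv_mem' := by
    rintro x ⟨n, hn, g, hg, rfl⟩
    refine ⟨s g⁻¹ * n⁻¹ * (s g⁻¹)⁻¹, hN g⁻¹ n⁻¹ (N.inv_mem hn), g⁻¹, H.inv_mem hg, ?_⟩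
    rw [map_inv]
    group

theorem pg_sup (p : ℕ) (G Gb : Type) [Group G] [Group Gb] (N : Subgroup G) (s : Gb →* G)
    (H : Subgroup Gb) (hN : ∀ g : Gb, ∀ n ∈ N, s g * n * (s g)⁻¹ ∈ N) (h₁ : PG p G N)
    (h₂ : PG p Gb H) : PG p G (N ⊔ H.map s) := by
  intro x hx
  have hle : N ⊔ H.map s ≤ sg N s H hN := by
    refine sup_le ?_ ?_
    · intro n hn
      exact ⟨n, hn, 1, H.one_mem, by rw [map_one, mul_one]⟩
    · intro y hy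
      obtain ⟨g, hg, rfl⟩ := Subgroup.mem_map.1 hy
      exact ⟨1, N.one_mem, g, hg, by rw [one_mul]⟩
  obtain ⟨n, hn, g, hg, rfl⟩ := hle hx
  have hpow : ∀ m : ℕ, ∃ n' ∈ N, (n * s g) ^ m = n' * s (g ^ m) := by
    intro m
    induction m with
    | zero => exact ⟨1, N.one_mem, by rw [pow_zero, pow_zero, map_one, mul_one]⟩
    | succ m ih =>
      obtain ⟨n', hn', e⟩ := ih
      refine ⟨n' * (s (g ^ m) * n * (s (g ^ m))⁻¹), N.mul_mem hn' (hN _ n hn), ?_⟩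
      rw [pow_succ, e, pow_succ g, map_mul]
      group
  obtain ⟨j, hj⟩ := h₂ g hg
  obtain ⟨n', hn', e⟩ := hpow (p ^ j)
  rw [hj, map_one, mul_one] at e
  obtain ⟨i, hi⟩ := h₁ n' hn'
  exact ⟨j + i, by rw [pow_add, pow_mul, e, hi]⟩

theorem t : CLS := by
  intro p r _ _
  refine ⟨⟨pr_prod p r, pr_map p r, ?_⟩, pr_of_p p r, pr_of_r p r, ol_prod p r, ol_of_pr p r,
    pg_sup p⟩
  intro G _
  refine pr_of_r p r G ⊥ ?_
  intro σ hσ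
  rw [Subgroup.mem_bot] at hσ
  exact ⟨0, by rw [hσ, one_pow]⟩

end Pool.Agent.Helper57.EV.CLS
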